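import Pool.Agent.Helper63.SM.WitIff
import Pool.Agent.Helper98.SW.PhiW2
import Pool.Agent.Helper2.SW.Index
import Pool.Agent.Helper52.SW.Omega
import Pool.Agent.Helper52.SW.Mat

/-!
# Project SW, model part: assembly
-/

set_option autoImplicit false

namespace Pool.Agent.Helper63.SM

open Cardinal Filter Set Pool.Agent.Helper23.XB Pool.Agent.Helper33.HM Pool.Agent.Helper33.HMG
open Pool.Agent.Helper32.HB Pool.Agent.Helper63.WR Pool.Agent.Helper2.SW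
open Pool.Agent.Helper20.SW (TW)
open Pool.Agent.Helper98.SW (nt tr Wit Pre)
open Pool.Agent.Helper87.Sym (Fml cons Sat IsTransModelZF cons_zero cons_succ)

variable {P : Type} [Preorder P] [OrderTop P]

/-- Pairs of reals of the model with witnesses are the pairs with increasing indices. -/
theorem ae_wit_iff {μ : Ordinal.{0}} (B : BWO P μ.ToType TW) : ∀ᶠ g in aeM P, ∀ σ ∈ g.N,
    ∀ τ ∈ g.N, (∃ G ∈ g.M, ∃ c ∈ g.M, Wit (g.val (onm μ)) (g.val σ) (g.val τ) G c) ↔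
      ∃ b b', b < b' ∧ Ix B g (g.val σ) b ∧ Ix B g (g.val τ) b' := by
  classical
  have hex : ∀ b b' : μ.ToType, ∃ (G : ℕ → ℕ → RO P) (c : μ.ToType → ℕ → ℕ → RO P), b < b' →
      ∀ x y, B.Idx x b ⊓ B.Idx y b' ≤ phi TW G c x y := by
    intro b b'
    by_cases h : b < b'
    · obtain ⟨G, c, h1⟩ := B.exist b b' h
      exact ⟨G, c, fun _ => h1⟩
    · exact ⟨fun _ _ => ⊥, fun _ _ _ => ⊥, fun h' => absurd h' h⟩
  choose G c hGc using hex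
  have hs : ∀ᶠ g in aeM P, ∀ t : List (Nm P), (∀ x ∈ t, x ∈ g.N) →
      g.fc (⨆ x : μ.ToType × μ.ToType, ⨆ _ : x.1 < x.2, B.Idx (rn (asg t 0)) x.1 ⊓
        B.Idx (rn (asg t 1)) x.2) → ∃ x : μ.ToType × μ.ToType, emptyN ∈ g.N ∧
        g.fc (⨆ _ : x.1 < x.2, B.Idx (rn (asg t 0)) x.1 ⊓ B.Idx (rn (asg t 1)) x.2) :=
    ae_supX (X := μ.ToType × μ.ToType) (fun _ => emptyN) fun v x => ⨆ _ : x.1 < x.2,
      B.Idx (rn (v 0)) x.1 ⊓ B.Idx (rn (v 1)) x.2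
  filter_upwards [ae_wit (P := P) μ, ae_ix B, Helper52.SW.ae_mats G c, hs]
    with g h1 h2 h3 h4 σ hσ τ hτ
  constructor
  · rintro ⟨_, ⟨γ, hγ, rfl⟩, _, ⟨χ, hχ, rfl⟩, hW⟩
    have h5 := (h1 γ hγ χ hχ σ hσ τ hτ).2 hW
    have h6 := GG.fc_mono (B.none _ _ _ _) h5
    have h7 := h4 [σ, τ] (by simp [hσ, hτ]) (by
      refine GG.fc_mono ?_ h6
      refine iSup_le fun b => iSup_le fun b' => iSup_le fun hb => ?_
      exact le_iSup_of_le (b, b') (le_iSup_of_le hb le_rfl))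
    obtain ⟨⟨b, b'⟩, -, h8⟩ := h7
    by_cases hb : b < b'
    · simp only [hb, iSup_pos] at h8
      obtain ⟨h9, h10⟩ := GG.fc_inf.1 h8
      exact ⟨b, b', hb, ⟨σ, hσ, rfl, h9⟩, ⟨τ, hτ, rfl, h10⟩⟩
    · simp only [hb, iSup_neg, not_false_eq_true] at h8
      exact absurd h8 GG.not_fc_bot
  · rintro ⟨b, b', hb, h5, h6⟩
    obtain ⟨b1, hb1, hb1'⟩ := h2 σ hσ
    obtain ⟨b2, hb2, hb2'⟩ := h2 τ hτ
    obtain rfl : b = b1 := ix_unique h5 ⟨σ, hσ, rfl, hb1'⟩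
    obtain rfl : b' = b2 := ix_unique h6 ⟨τ, hτ, rfl, hb2'⟩
    obtain ⟨γ, hγ, χ, hχ, h7, h8⟩ := h3 b b' hb1 hb2
    refine ⟨_, GG.val_mem hγ, _, GG.val_mem hχ, (h1 γ hγ χ hχ σ hσ τ hτ).1 ?_⟩
    have e1 : mG γ = G b b' := by
      funext x y
      exact h7 x y
    have e2 : (fun i : μ.ToType => mc χ (oI i)) = c b b' := by
      funext i k a
      exact h8 i k a
    rw [e1, e2]
    exact GG.fc_mono (hGc b b' hb _ _) (GG.fc_inf.2 ⟨hb1', hb2'⟩)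

/-- The formula defines a well-order of the reals of the model. -/
theorem ae_defines {φ : Fml} (hφ : ∀ M : Set ZFSet.{0}, IsTransModelZF M →
    ∀ x ∈ M, ∀ y ∈ M, ∀ w2 ∈ M, ZFSet.omega ∈ w2 →
      (Sat M φ (cons x (cons y (cons w2 fun _ => ∅))) ↔
        x ⊆ ZFSet.omega ∧ y ⊆ ZFSet.omega ∧ ∃ G ∈ M, ∃ c ∈ M, Wit w2 x y G c))
    {μ : Ordinal.{0}} (hμ : Ordinal.omega0 < μ) (B : BWO P μ.ToType TW) :
    ∀ᶠ g in aeM P, DefinesWellOrder φ g.M (g.val (onm μ)) := by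
  filter_upwards [ae_wit_iff B, ae_wo B, ae_zfc, ae_cl0 (onm μ : Nm P),
    ae_cl0 (onm Ordinal.omega0 : Nm P), ae_omega] with g h1 h2 h3 h4 h5 h6
  have h7 : ZFSet.omega ∈ g.val (onm μ : Nm P) :=
    mem_val_onm'.2 ⟨Ordinal.omega0, hμ, h5, h6⟩
  have h8 : ∀ x ∈ g.M, ∀ y ∈ g.M, (Sat g.M φ (cons x (cons y (cons (g.val (onm μ)) fun _ => ∅))) ↔
      x ⊆ ZFSet.omega ∧ y ⊆ ZFSet.omega ∧ ∃ b b', b < b' ∧ Ix B g x b ∧ Ix B g y b') := by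
    rintro _ ⟨σ, hσ, rfl⟩ _ ⟨τ, hτ, rfl⟩
    refine (hφ g.M h3.2.zf _ (GG.val_mem hσ) _ (GG.val_mem hτ) _ (GG.val_mem h4) h7).trans ?_
    have h9 := h1 σ hσ τ hτ
    constructor
    · rintro ⟨h10, h11, h12⟩
      exact ⟨h10, h11, h9.1 h12⟩
    · rintro ⟨h10, h11, h12⟩
      exact ⟨h10, h11, h9.2 h12⟩
  unfold DefinesWellOrder
  refine ⟨?_, ?_, ?_, ?_, ?_⟩
  · intro x hx y hy h
    exact h2.dom x hx y hy ((h8 x hx y hy).1 h)
  · intro x hx h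
    exact h2.irrefl x hx ((h8 x hx x hx).1 h)
  · intro x hx y hy z hz h h'
    exact (h8 x hx z hz).2 (h2.trans x hx y hy z hz ((h8 x hx y hy).1 h) ((h8 y hy z hz).1 h'))
  · intro x hx y hy hx' hy'
    rcases h2.total x hx y hy hx' hy' with h | h | h
    · exact Or.inl h
    · exact Or.inr (Or.inl ((h8 x hx y hy).2 h))
    · exact Or.inr (Or.inr ((h8 y hy x hx).2 h))
  · intro S hS hS' hne
    obtain ⟨x, hx, hx'⟩ := h2.least S hS hS' hne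
    refine ⟨x, hx, fun y hy => ?_⟩
    rcases hx' y hy with h | h
    · exact Or.inl h
    · exact Or.inr ((h8 x (hS hx) y (hS hy)).2 h)

/-- The model part of project SW. -/
theorem model_of_bwo {φ : Fml} (hφ : ∀ M : Set ZFSet.{0}, IsTransModelZF M →
    ∀ x ∈ M, ∀ y ∈ M, ∀ w2 ∈ M, ZFSet.omega ∈ w2 →
      (Sat M φ (cons x (cons y (cons w2 fun _ => ∅))) ↔
        x ⊆ ZFSet.omega ∧ y ⊆ ZFSet.omega ∧ ∃ G ∈ M, ∃ c ∈ M, Wit w2 x y G c))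
    {δ : Cardinal.{0}} (hδ : IsInaccessible δ) (hcc : CC δ P)
    (hcol : ∀ α : Ordinal.{0}, α ≠ 0 → α < δ.ord → ∃ F : ℕ → α.ToType → RO P,
      (∀ n b b', b ≠ b' → F n b ⊓ F n b' = ⊥) ∧ (∀ n, ⨆ b, F n b = ⊤) ∧ ∀ b, ⨆ n, F n b = ⊤)
    (hB : Nonempty (BWO P (Order.succ δ).ord.ToType TW))
    (Q : Set ZFSet.{0} → Prop) (hQ : ∀ᶠ g in aeM P, Q g.M) :
    ∃ M : Set ZFSet.{0}, M.Countable ∧ IsTransModelZFC M ∧ Q M ∧
      ∃ w2, IsOmega2In M w2 ∧ DefinesWellOrder φ M w2 := by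
  obtain ⟨B⟩ := hB
  have hμ : Ordinal.omega0 < (Order.succ δ).ord := by
    rw [← Cardinal.ord_aleph0, Cardinal.ord_lt_ord]
    exact hδ.aleph0_lt.trans (Order.lt_succ δ)
  obtain ⟨g, h1, h2, h3, h4⟩ := ((ae_zfc (P := P)).and (hQ.and
    ((Helper52.SW.ae_omega2_of hδ hcc hcol ae_omega).and (ae_defines hφ hμ B)))).exists
  exact ⟨g.M, h1.1, h1.2, h2, _, h3, h4⟩

end Pool.Agent.Helper63.SM
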