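import Pool.Agent.Helper63.WR.DefsM
import Pool.Agent.Helper23.XB.E1b

/-!
# Project SW, model part: evaluation of Boolean valued expressions

`Ev F S`: for almost all generic fragments, the value `F v` belongs to the generic ultrafilter iff
`S g v` holds, for all finite sequences `v` of names of the fragment.
-/

set_option autoImplicit false

namespace Pool.Agent.Helper63.SM

open Cardinal Filter Set Pool.Agent.Helper23.XB Pool.Agent.Helper33.HM Pool.Agent.Helper33.HMG
open Pool.Agent.Helper32.HB Pool.Agent.Helper63.WR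
open Pool.Agent.Helper87.Sym (Fml cons Sat IsTransModelZF cons_zero cons_succ)

universe u

variable {P : Type u} [Preorder P] [OrderTop P]

omit [Preorder P] [OrderTop P] in
theorem asg_cons (x : Nm P) (t : List (Nm P)) : asg (x :: t) = cons x (asg t) := by
  funext i
  cases i with
  | zero => rfl
  | succ i => rfl

/-- Witnesses of suprema over a set whose elements are coded by names. -/
theorem ae_supX {X : Sort*} (c : X → Nm P) (F : (ℕ → Nm P) → X → RO P) :
    ∀ᶠ g in aeM P, ∀ t : List (Nm P), (∀ x ∈ t, x ∈ g.N) → g.fc (⨆ x, F (asg t) x) →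
      ∃ x, c x ∈ g.N ∧ g.fc (F (asg t) x) := by
  filter_upwards [ae_rq fun v (p : P) n => ∃ x, n = c x ∧ p ∈ F v x] with g hg t ht ⟨l, hl⟩
  obtain ⟨k, hk | hk⟩ := hg t ht
  · obtain ⟨n, hn, x, rfl, hx⟩ := hk
    exact ⟨x, hn, k, hx⟩
  · exfalso
    obtain ⟨r, hr, x, hx⟩ := RO.mem_iSup.1 hl (g.pc (max k l)) (GG.pc_le (le_max_right _ _))
    exact hk r (hr.trans (GG.pc_le (le_max_left _ _))) (c x) ⟨x, rfl, hx⟩

theorem ae_infX {X : Sort*} (c : X → Nm P) (F : (ℕ → Nm P) → X → RO P) :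
    ∀ᶠ g in aeM P, ∀ t : List (Nm P), (∀ x ∈ t, x ∈ g.N) →
      (∀ x, c x ∈ g.N → g.fc (F (asg t) x)) → g.fc (⨅ x, F (asg t) x) := by
  filter_upwards [ae_dec fun v => ⨅ x, F v x, ae_supX c fun v x => (F v x)ᶜ] with g h1 h2 t ht h3
  rcases h1 t ht with h | h
  · exact h
  · exfalso
    rw [compl_iInf] at h
    obtain ⟨x, hx, hx'⟩ := h2 t ht h
    exact GG.not_fc_compl hx' (h3 x hx)

/-- The evaluation of `F` is `S`. -/
def Ev (F : (ℕ → Nm P) → RO P) (S : GG P → (ℕ → Nm P) → Prop) : Prop :=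
  ∀ᶠ g in aeM P, ∀ t : List (Nm P), (∀ x ∈ t, x ∈ g.N) → (g.fc (F (asg t)) ↔ S g (asg t))

namespace Ev

variable {F G : (ℕ → Nm P) → RO P} {S T : GG P → (ℕ → Nm P) → Prop}

theorem congr (h : Ev F S) (h' : ∀ᶠ g in aeM P, ∀ t : List (Nm P), (∀ x ∈ t, x ∈ g.N) →
    (S g (asg t) ↔ T g (asg t))) : Ev F T := by
  filter_upwards [h, h'] with g h1 h2 t ht
  rw [h1 t ht, h2 t ht]

theorem compl (h : Ev F S) : Ev (fun v => (F v)ᶜ) (fun g v => ¬ S g v) := by
  filter_upwards [h, ae_dec F] with g h1 h2 t ht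
  rw [← h1 t ht]
  constructor
  · exact fun h => GG.not_fc_compl h
  · intro h
    exact (h2 t ht).resolve_left h

theorem inf (h : Ev F S) (h' : Ev G T) : Ev (fun v => F v ⊓ G v) (fun g v => S g v ∧ T g v) := by
  filter_upwards [h, h'] with g h1 h2 t ht
  rw [GG.fc_inf, h1 t ht, h2 t ht]

/-- countable suprema -/
theorem iSup {K : Sort*} [Countable K] {F : K → (ℕ → Nm P) → RO P}
    {S : K → GG P → (ℕ → Nm P) → Prop} (h : ∀ k, Ev (F k) (S k)) :
    Ev (fun v => ⨆ k, F k v) (fun g v => ∃ k, S k g v) := by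
  filter_upwards [eventually_countable_forall.2 h, ae_supX (fun _ => emptyN) fun v k => F k v]
    with g h1 h2 t ht
  constructor
  · intro h3
    obtain ⟨k, -, hk⟩ := h2 t ht h3
    exact ⟨k, (h1 k t ht).1 hk⟩
  · rintro ⟨k, hk⟩
    exact GG.fc_mono (le_iSup (fun k => F k (asg t)) k) ((h1 k t ht).2 hk)

/-- countable infima -/
theorem iInf {K : Sort*} [Countable K] {F : K → (ℕ → Nm P) → RO P}
    {S : K → GG P → (ℕ → Nm P) → Prop} (h : ∀ k, Ev (F k) (S k)) :
    Ev (fun v => ⨅ k, F k v) (fun g v => ∀ k, S k g v) := by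
  filter_upwards [eventually_countable_forall.2 h, ae_infX (fun _ => emptyN) fun v k => F k v]
    with g h1 h2 t ht
  constructor
  · intro h3 k
    exact (h1 k t ht).1 (GG.fc_mono (iInf_le (fun k => F k (asg t)) k) h3)
  · intro h3
    exact h2 t ht fun k _ => (h1 k t ht).2 (h3 k)

/-- infima over names of a special form -/
theorem iInfX {X : Type*} (c : X → Nm P) (h : Ev F S) :
    Ev (fun v => ⨅ x, F (cons (c x) v)) (fun g v => ∀ x, c x ∈ g.N → S g (cons (c x) v)) := by
  filter_upwards [h, ae_infX c fun v x => F (cons (c x) v)] with g h1 h2 t ht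
  have h3 : ∀ x, c x ∈ g.N → (g.fc (F (cons (c x) (asg t))) ↔ S g (cons (c x) (asg t))) := by
    intro x hx
    have := h1 (c x :: t) (by simpa [hx] using ht)
    rwa [asg_cons] at this
  constructor
  · intro h4 x hx
    exact (h3 x hx).1 (GG.fc_mono (iInf_le (fun x => F (cons (c x) (asg t))) x) h4)
  · intro h4
    exact h2 t ht fun x hx => (h3 x hx).2 (h4 x hx)

/-- suprema over names of a special form -/
theorem iSupX {X : Type*} (c : X → Nm P) (h : Ev F S) :
    Ev (fun v => ⨆ x, F (cons (c x) v)) (fun g v => ∃ x, c x ∈ g.N ∧ S g (cons (c x) v)) := by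
  filter_upwards [h, ae_supX c fun v x => F (cons (c x) v)] with g h1 h2 t ht
  have h3 : ∀ x, c x ∈ g.N → (g.fc (F (cons (c x) (asg t))) ↔ S g (cons (c x) (asg t))) := by
    intro x hx
    have := h1 (c x :: t) (by simpa [hx] using ht)
    rwa [asg_cons] at this
  constructor
  · intro h4
    obtain ⟨x, hx, h5⟩ := h2 t ht h4
    exact ⟨x, hx, (h3 x hx).1 h5⟩
  · rintro ⟨x, hx, h4⟩
    exact GG.fc_mono (le_iSup (fun x => F (cons (c x) (asg t))) x) ((h3 x hx).2 h4)

/-- the value of membership -/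
theorem vm (σ τ : (ℕ → Nm P) → Nm P) :
    Ev (fun v => vm (σ v) (τ v)) (fun g v => g.val (σ v) ∈ g.val (τ v)) := by
  filter_upwards [ae_cl σ, ae_cl τ] with g h1 h2 t ht
  exact GG.fc_vm (h1 t ht) (h2 t ht)

/-- change of the variables -/
theorem comp (h : Ev F S) (e : List ((ℕ → Nm P) → Nm P)) :
    Ev (fun v => F (asg (e.map fun σ => σ v))) (fun g v => S g (asg (e.map fun σ => σ v))) := by
  have h0 : ∀ e : List ((ℕ → Nm P) → Nm P), ∀ᶠ g in aeM P, ∀ t : List (Nm P),
      (∀ x ∈ t, x ∈ g.N) → ∀ σ ∈ e, σ (asg t) ∈ g.N := by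
    intro e
    induction e with
    | nil => exact Eventually.of_forall fun g t ht σ hσ => by simp at hσ
    | cons σ e ih =>
      filter_upwards [ih, ae_cl σ] with g h1 h2 t ht σ' hσ'
      rcases List.mem_cons.1 hσ' with rfl | h3
      · exact h2 t ht
      · exact h1 t ht σ' h3
  filter_upwards [h, h0 e] with g h1 h2 t ht
  refine h1 _ fun x hx => ?_
  obtain ⟨σ, hσ, rfl⟩ := List.mem_map.1 hx
  exact h2 t ht σ hσ

end Ev

end Pool.Agent.Helper63.SM
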