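import Pool.Agent.Helper63.SM.Ev
import Pool.Agent.Helper32.HB.Nam
import Pool.Agent.Helper23.XB.E2b

/-!
# Project SW, model part: names of ordinals, numbers, pairs
-/

set_option autoImplicit false

namespace Pool.Agent.Helper63.SM

open Cardinal Filter Set Pool.Agent.Helper23.XB Pool.Agent.Helper33.HM Pool.Agent.Helper33.HMG
open Pool.Agent.Helper32.HB Pool.Agent.Helper63.WR
open Pool.Agent.Helper87.Sym (Fml cons Sat IsTransModelZF cons_zero cons_succ)

variable {P : Type} [Preorder P] [OrderTop P]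

/-- the von Neumann numeral -/
noncomputable def num (n : ℕ) : ZFSet.{0} := ZFSet.mk (PSet.ofNat n)

theorem mem_num {n : ℕ} {x : ZFSet.{0}} : x ∈ num n ↔ ∃ m, m < n ∧ x = num m := nam_mem_nat

theorem num_inj {m n : ℕ} (h : num m = num n) : m = n := nam_nat_inj h

theorem mem_omega {x : ZFSet.{0}} : x ∈ ZFSet.omega ↔ ∃ n, x = num n := nam_mem_omega

/-- The name of the natural number `n`. -/
noncomputable def oN (n : ℕ) : Nm P := onm (n : Ordinal.{0})

/-- The name of the ordinal `i < μ`. -/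
noncomputable def oI {μ : Ordinal.{0}} (i : μ.ToType) : Nm P := onm (Ordinal.ToType.toOrd i).1

/-- The values of the natural numbers in the real `σ`. -/
noncomputable def rn (σ : Nm P) (n : ℕ) : RO P := vm (oN n) σ

variable {g : GG P}

theorem mem_val_onm {α : Ordinal.{0}} {x : ZFSet.{0}} :
    x ∈ g.val (onm α : Nm P) ↔ ∃ i : α.ToType, (oI i : Nm P) ∈ g.N ∧ g.val (oI i) = x := by
  rw [onm, GG.mem_val]
  constructor
  · rintro ⟨i, h1, h2, h3⟩
    exact ⟨i, h1, h3⟩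
  · rintro ⟨i, h1, h2⟩
    exact ⟨i, h1, ⟨0, le_top⟩, h2⟩

theorem mem_val_onm' {α : Ordinal.{0}} {x : ZFSet.{0}} :
    x ∈ g.val (onm α : Nm P) ↔ ∃ β, β < α ∧ (onm β : Nm P) ∈ g.N ∧ g.val (onm β) = x := by
  rw [mem_val_onm]
  constructor
  · rintro ⟨i, h1, h2⟩
    exact ⟨_, (Ordinal.ToType.toOrd i).2, h1, h2⟩
  · rintro ⟨β, h1, h2, h3⟩
    refine ⟨Ordinal.ToType.mk ⟨β, h1⟩, ?_⟩
    unfold oI
    rw [show (Ordinal.ToType.toOrd (Ordinal.ToType.mk (⟨β, h1⟩ : Iio α))).1 = β by simp]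
    exact ⟨h2, h3⟩

theorem ae_oN : ∀ᶠ g in aeM P, ∀ n : ℕ, (oN n : Nm P) ∈ g.N :=
  eventually_countable_forall.2 fun _ => ae_cl0 _

theorem val_oN (h : ∀ n : ℕ, (oN n : Nm P) ∈ g.N) (n : ℕ) : g.val (oN n) = num n := by
  induction n using Nat.strong_induction_on with
  | _ n ih =>
    ext x
    rw [show (oN n : Nm P) = onm (n : Ordinal.{0}) from rfl, mem_val_onm', mem_num]
    constructor
    · rintro ⟨β, h1, -, h3⟩
      obtain ⟨m, rfl⟩ := Ordinal.lt_omega0.1 (h1.trans (Ordinal.natCast_lt_omega0 n))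
      have h4 : m < n := by exact_mod_cast h1
      exact ⟨m, h4, h3.symm.trans (ih m h4)⟩
    · rintro ⟨m, hm, rfl⟩
      exact ⟨m, by exact_mod_cast hm, h m, ih m hm⟩

theorem val_omega (h : ∀ n : ℕ, (oN n : Nm P) ∈ g.N) :
    g.val (onm Ordinal.omega0 : Nm P) = ZFSet.omega := by
  ext x
  rw [mem_val_onm', mem_omega]
  constructor
  · rintro ⟨β, h1, -, h3⟩
    obtain ⟨m, rfl⟩ := Ordinal.lt_omega0.1 h1
    exact ⟨m, h3.symm.trans (val_oN h m)⟩
  · rintro ⟨m, rfl⟩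
    exact ⟨m, Ordinal.natCast_lt_omega0 m, h m, val_oN h m⟩

/-- The value of the name of `ω`. -/
theorem ae_omega : ∀ᶠ g in aeM P, g.val (onm Ordinal.omega0 : Nm P) = ZFSet.omega := by
  filter_upwards [ae_oN (P := P)] with g h
  exact val_omega h

theorem ae_pairN : ∀ᶠ g in aeM P, ∀ σ ∈ g.N, ∀ τ ∈ g.N, pairN σ τ ∈ g.N ∧
    g.val (pairN σ τ) = ZFSet.pair (g.val σ) (g.val τ) := by
  have hup : ∀ g : GG P, ∀ σ ∈ g.N, ∀ τ ∈ g.N, g.val (upairN σ τ) = {g.val σ, g.val τ} := by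
    intro g σ hσ τ hτ
    ext z
    rw [GG.mem_val, ZFSet.mem_pair]
    constructor
    · rintro ⟨⟨b⟩, h1, h2, h3⟩
      cases b with
      | true => exact Or.inl h3.symm
      | false => exact Or.inr h3.symm
    · rintro (rfl | rfl)
      · exact ⟨⟨true⟩, hσ, ⟨0, le_top⟩, rfl⟩
      · exact ⟨⟨false⟩, hτ, ⟨0, le_top⟩, rfl⟩
  filter_upwards [ae_cl2 (P := P) upairN, ae_cl2 (P := P) pairN] with g h1 h2 σ hσ τ hτ
  refine ⟨h2 σ hσ τ hτ, ?_⟩
  unfold pairN
  rw [hup g _ (h1 σ hσ σ hσ) _ (h1 σ hσ τ hτ), hup g _ hσ _ hσ, hup g _ hσ _ hτ]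
  unfold ZFSet.pair
  congr 1
  ext z
  simp

/-- The names of the ordinals are distinct. -/
theorem onm_inj {α β : Ordinal.{0}} (h : (onm α : Nm P) = onm β) : α = β := by
  by_contra hne
  have h1 : veq (onm α : Nm P) (onm β) = ⊥ := veq_onm hne
  rw [h, H28E1b.veq_self] at h1
  exact RO.not_mem_bot (⊤ : P) (h1 ▸ RO.mem_top _)

theorem oI_inj {μ : Ordinal.{0}} {i j : μ.ToType} (h : (oI i : Nm P) = oI j) : i = j := by
  have h1 := onm_inj h
  have h3 : Ordinal.ToType.toOrd i = Ordinal.ToType.toOrd j := Subtype.ext h1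
  exact Ordinal.ToType.mk.symm.injective h3

theorem oI_lt_iff {μ : Ordinal.{0}} {i j : μ.ToType} :
    (Ordinal.ToType.toOrd i).1 < (Ordinal.ToType.toOrd j).1 ↔ i < j := by
  rw [Subtype.coe_lt_coe]
  exact (Ordinal.ToType.mk (o := μ)).symm.lt_iff_lt

/-- The order of the elements of the value of an ordinal. -/
theorem val_oI_mem {μ : Ordinal.{0}} {i j : μ.ToType} (hi : (oI i : Nm P) ∈ g.N)
    (hj : (oI j : Nm P) ∈ g.N) : g.val (oI i) ∈ g.val (oI j) ↔ i < j := by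
  rw [← GG.fc_vm hi hj]
  unfold oI
  rcases lt_or_ge i j with h | h
  · rw [vm_onm_lt (oI_lt_iff.2 h)]
    exact ⟨fun _ => h, fun _ => GG.fc_top⟩
  · rw [vm_onm_ge (not_lt.1 fun h' => absurd (oI_lt_iff.1 h') (not_lt.2 h))]
    exact ⟨fun h' => absurd h' GG.not_fc_bot, fun h' => absurd h' (not_lt.2 h)⟩

theorem val_oI_inj {μ : Ordinal.{0}} {i j : μ.ToType} (hi : (oI i : Nm P) ∈ g.N)
    (hj : (oI j : Nm P) ∈ g.N) (h : g.val (oI i) = g.val (oI j)) : i = j := by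
  rcases lt_trichotomy i j with h1 | h1 | h1
  · have h2 := (val_oI_mem hi hj).2 h1
    rw [h] at h2
    exact absurd h2 (ZFSet.mem_irrefl _)
  · exact h1
  · have h2 := (val_oI_mem hj hi).2 h1
    rw [h] at h2
    exact absurd h2 (ZFSet.mem_irrefl _)

end Pool.Agent.Helper63.SM
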