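import Pool.Agent.Helper63.SM.Num
import Pool.Agent.Helper2.SW.Defs2

/-!
# Project SW, model part: the evaluation of `phi`
-/

set_option autoImplicit false

namespace Pool.Agent.Helper63.SM

open Cardinal Filter Set Pool.Agent.Helper23.XB Pool.Agent.Helper33.HM Pool.Agent.Helper33.HMG
open Pool.Agent.Helper32.HB Pool.Agent.Helper63.WR Pool.Agent.Helper2.SW
open Pool.Agent.Helper87.Sym (Fml cons Sat IsTransModelZF cons_zero cons_succ)

variable {P : Type} [Preorder P] [OrderTop P]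

namespace Ev

variable {F : (ℕ → Nm P) → RO P} {S : GG P → (ℕ → Nm P) → Prop}

/-- conditions on the names -/
theorem pinf (p : (ℕ → Nm P) → Prop) (h : Ev F S) :
    Ev (fun v => ⨅ _ : p v, F v) (fun g v => p v → S g v) := by
  filter_upwards [h] with g h1 t ht
  by_cases hp : p (asg t)
  · simp only [hp, iInf_pos, forall_true_left]
    exact h1 t ht
  · simp only [hp, iInf_neg, not_false_eq_true, false_imp_iff, iff_true]
    exact GG.fc_top

theorem bit (b : Bool) (h : Ev F S) :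
    Ev (fun v => Pool.Agent.Helper2.SW.bit b (F v)) (fun g v => b = true ↔ S g v) := by
  cases b with
  | true => exact h.congr (Eventually.of_forall fun g t _ => by simp)
  | false => exact h.compl.congr (Eventually.of_forall fun g t _ => by simp)

end Ev

/-- The matrix of the relation `χ`. -/
noncomputable def mc (χ ν : Nm P) (k a : ℕ) : RO P := vm (pairN ν (pairN (oN k) (oN a))) χ

/-- The matrix of the relation `γ`. -/
noncomputable def mG (γ : Nm P) (a b : ℕ) : RO P := vm (pairN (oN a) (oN b)) γ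

/-- the order of the names of the elements of `μ` -/
def ltN {μ : Ordinal.{0}} (α β : Nm P) : Prop := ∃ i j : μ.ToType, α = oI i ∧ β = oI j ∧ i < j

omit [OrderTop P] in
theorem iInf_fun {n : ℕ} (A : (ℕ → ℕ) → RO P)
    (h : ∀ e e' : ℕ → ℕ, (∀ v, v < n → e v = e' v) → A e = A e') :
    ⨅ e, A e = ⨅ l : List ℕ, A fun v => l.getD v 0 := by
  refine le_antisymm (le_iInf fun l => iInf_le _ _) (le_iInf fun e => ?_)
  refine (iInf_le _ ((List.range n).map e)).trans (le_of_eq (h _ _ fun v hv => ?_))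
  simp [hv]

omit [OrderTop P] in
theorem cpV_congr {T : Pat Wd} (G : ℕ → ℕ → RO P) (j : Wd) (e e' : ℕ → ℕ)
    (h : ∀ v, v < T.N j → e v = e' v) : cpV T G j e = cpV T G j e' := by
  unfold cpV
  refine iInf_congr fun v => iInf_congr fun w => iInf_congr fun hvw => ?_
  rw [h v hvw.1, h w hvw.2.1]

/-- The evaluation of `phi`. -/
theorem ev_phi (μ : Ordinal.{0}) (T : Pat Wd) :
    Ev (P := P) (fun v => phi T (mG (v 0)) (fun i : μ.ToType => mc (v 1) (oI i)) (rn (v 2))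
      (rn (v 3))) fun g v =>
      (((∀ i : μ.ToType, (oI i : Nm P) ∈ g.N → ∀ k a b : ℕ, a ≠ b →
        ¬ (g.val (pairN (oI i) (pairN (oN k) (oN a))) ∈ g.val (v 1) ∧
          g.val (pairN (oI i) (pairN (oN k) (oN b))) ∈ g.val (v 1))) ∧
      (∀ i : μ.ToType, (oI i : Nm P) ∈ g.N → ∀ k : ℕ, ∃ a : ℕ,
        g.val (pairN (oI i) (pairN (oN k) (oN a))) ∈ g.val (v 1))) ∧
      (∀ i : μ.ToType, (oI i : Nm P) ∈ g.N → ∀ j : μ.ToType, (oI j : Nm P) ∈ g.N → i < j →
        ∃ m : ℕ, ∀ k, m ≤ k → ∃ a b : ℕ,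
          (g.val (pairN (oI i) (pairN (oN k) (oN a))) ∈ g.val (v 1) ∧
          g.val (pairN (oI j) (pairN (oN k) (oN b))) ∈ g.val (v 1)) ∧
          g.val (pairN (oN a) (oN b)) ∈ g.val (v 0))) ∧
      ∀ (j : Wd) (l : List ℕ), ¬ ((∀ k : Fin j.length,
        ((j.get k).1 = true ↔ g.val (oN k) ∈ g.val (v 2)) ∧
        ((j.get k).2 = true ↔ g.val (oN k) ∈ g.val (v 3))) ∧
        ∀ x y, (x < T.N j ∧ y < T.N j ∧ T.arc j x y) →
          g.val (pairN (oN (l.getD x 0)) (oN (l.getD y 0))) ∈ g.val (v 0)) := by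
  have hc : ∀ (ν χ : (ℕ → Nm P) → Nm P) (k a : ℕ), Ev (fun v => mc (χ v) (ν v) k a)
      fun g v => g.val (pairN (ν v) (pairN (oN k) (oN a))) ∈ g.val (χ v) :=
    fun ν χ k a => Ev.vm (fun v => pairN (ν v) (pairN (oN k) (oN a))) χ
  have hG : ∀ (γ : (ℕ → Nm P) → Nm P) (a b : ℕ), Ev (fun v => mG (γ v) a b)
      fun g v => g.val (pairN (oN a) (oN b)) ∈ g.val (γ v) :=
    fun γ a b => Ev.vm (fun _ => pairN (oN a) (oN b)) γ
  have hr : ∀ (σ : (ℕ → Nm P) → Nm P) (k : ℕ), Ev (fun v => rn (σ v) k)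
      fun g v => g.val (oN k) ∈ g.val (σ v) := fun σ k => Ev.vm (fun _ => oN k) σ
  refine Ev.inf (Ev.inf (Ev.inf ?_ ?_) ?_) ?_
  · exact Ev.iInfX (F := fun w => ⨅ k : ℕ, ⨅ a : ℕ, ⨅ b : ℕ, ⨅ _ : a ≠ b,
      (mc (w 2) (w 0) k a ⊓ mc (w 2) (w 0) k b)ᶜ) oI
      (Ev.iInf fun k => Ev.iInf fun a => Ev.iInf fun b => Ev.iInf fun _ =>
        ((hc (fun w => w 0) (fun w => w 2) k a).inf (hc (fun w => w 0) (fun w => w 2) k b)).compl)
  · exact Ev.iInfX (F := fun w => ⨅ k : ℕ, ⨆ a : ℕ, mc (w 2) (w 0) k a) oI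
      (Ev.iInf fun k => Ev.iSup fun a => hc (fun w => w 0) (fun w => w 2) k a)
  · have h1 := Ev.iInfX (F := fun w => ⨅ j : μ.ToType, ⨅ _ : ltN (μ := μ) (w 0) (oI j),
      ⨆ m : ℕ, ⨅ k, ⨅ _ : m ≤ k, ⨆ a, ⨆ b,
        mc (w 2) (w 0) k a ⊓ mc (w 2) (oI j) k b ⊓ mG (w 1) a b) (oI (P := P) (μ := μ))
      (Ev.iInfX (F := fun w => ⨅ _ : ltN (μ := μ) (w 1) (w 0),
      ⨆ m : ℕ, ⨅ k, ⨅ _ : m ≤ k, ⨆ a, ⨆ b,
        mc (w 3) (w 1) k a ⊓ mc (w 3) (w 0) k b ⊓ mG (w 2) a b) (oI (P := P) (μ := μ))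
        (Ev.pinf _ (Ev.iSup fun m => Ev.iInf fun k => Ev.iInf fun _ => Ev.iSup fun a =>
          Ev.iSup fun b => ((hc (fun w => w 1) (fun w => w 3) k a).inf
            (hc (fun w => w 0) (fun w => w 3) k b)).inf (hG (fun w => w 2) a b))))
    have h2 : ∀ i j : μ.ToType, ltN (P := P) (μ := μ) (oI i) (oI j) ↔ i < j := by
      intro i j
      constructor
      · rintro ⟨i', j', h3, h4, h5⟩
        rwa [oI_inj h3, oI_inj h4]
      · exact fun h => ⟨i, j, rfl, rfl, h⟩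
    simp only [cons_zero, h2] at h1
    refine Ev.congr h1 (Eventually.of_forall fun g t _ => ?_)
    refine forall_congr' fun i => imp_congr_right fun _ => forall_congr' fun j =>
      imp_congr_right fun _ => ?_
    exact imp_congr (h2 i j) Iff.rfl
  · have e : ∀ (G : ℕ → ℕ → RO P) (x y : ℕ → RO P),
        (⨅ j, ⨅ h : ℕ → ℕ, (pre j x y ⊓ cpV T G j h)ᶜ) =
        ⨅ j, ⨅ l : List ℕ, (pre j x y ⊓ cpV T G j fun v => l.getD v 0)ᶜ := by
      intro G x y
      refine iInf_congr fun j => ?_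
      exact iInf_fun (n := T.N j) (fun h => (pre j x y ⊓ cpV T G j h)ᶜ)
        fun e e' h => by rw [cpV_congr G j e e' h]
    simp only [e]
    refine Ev.iInf fun j => Ev.iInf fun l => (Ev.inf ?_ ?_).compl
    · exact Ev.iInf fun k => ((hr (fun v => v 2) k).bit _).inf ((hr (fun v => v 3) k).bit _)
    · exact Ev.iInf fun x => Ev.iInf fun y => Ev.iInf fun _ => hG (fun v => v 0) _ _

end Pool.Agent.Helper63.SM
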