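import Pool.Agent.Helper63.SM.Phi
import Pool.Agent.Helper98.SW.PhiW

/-!
# Project SW, model part: `phi` and the witnesses in the model
-/

set_option autoImplicit false

namespace Pool.Agent.Helper63.SM

open Cardinal Filter Set Pool.Agent.Helper23.XB Pool.Agent.Helper33.HM Pool.Agent.Helper33.HMG
open Pool.Agent.Helper32.HB Pool.Agent.Helper63.WR Pool.Agent.Helper2.SW
open Pool.Agent.Helper20.SW (TW)
open Pool.Agent.Helper98.SW (nt tr Wit Pre)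
open Pool.Agent.Helper87.Sym (Fml cons Sat IsTransModelZF cons_zero cons_succ)

variable {P : Type} [Preorder P] [OrderTop P]

/-- The value of `phi` belongs to the generic ultrafilter iff the sets are witnesses. -/
theorem ae_wit (μ : Ordinal.{0}) : ∀ᶠ g in aeM P, ∀ γ ∈ g.N, ∀ χ ∈ g.N, ∀ σ ∈ g.N, ∀ τ ∈ g.N,
    (g.fc (phi TW (mG γ) (fun i : μ.ToType => mc χ (oI i)) (rn σ) (rn τ)) ↔
      Wit (g.val (onm μ)) (g.val σ) (g.val τ) (g.val γ) (g.val χ)) := by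
  filter_upwards [ev_phi (P := P) μ TW, ae_oN, ae_pairN] with g h1 h2 h3 γ hγ χ hχ σ hσ τ hτ
  have h4 := h1 [γ, χ, σ, τ] (by simp [hγ, hχ, hσ, hτ])
  refine Iff.trans h4 ?_
  have e0 : ∀ n, g.val (oN n) = nt n := val_oN h2
  have e1 : ∀ a b : ℕ, g.val (pairN (oN a) (oN b)) = ZFSet.pair (nt a) (nt b) := by
    intro a b
    rw [(h3 _ (h2 a) _ (h2 b)).2, e0, e0]
  have e2 : ∀ i : μ.ToType, (oI i : Nm P) ∈ g.N → ∀ k a : ℕ,
      g.val (pairN (oI i) (pairN (oN k) (oN a))) = tr (g.val (oI i)) (nt k) (nt a) := by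
    intro i hi k a
    rw [(h3 _ hi _ (h3 _ (h2 k) _ (h2 a)).1).2, e1]
    rfl
  change (((∀ i : μ.ToType, (oI i : Nm P) ∈ g.N → ∀ k a b : ℕ, a ≠ b →
        ¬ (g.val (pairN (oI i) (pairN (oN k) (oN a))) ∈ g.val χ ∧
          g.val (pairN (oI i) (pairN (oN k) (oN b))) ∈ g.val χ)) ∧
      (∀ i : μ.ToType, (oI i : Nm P) ∈ g.N → ∀ k : ℕ, ∃ a : ℕ,
        g.val (pairN (oI i) (pairN (oN k) (oN a))) ∈ g.val χ)) ∧
      (∀ i : μ.ToType, (oI i : Nm P) ∈ g.N → ∀ j : μ.ToType, (oI j : Nm P) ∈ g.N → i < j →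
        ∃ m : ℕ, ∀ k, m ≤ k → ∃ a b : ℕ,
          (g.val (pairN (oI i) (pairN (oN k) (oN a))) ∈ g.val χ ∧
          g.val (pairN (oI j) (pairN (oN k) (oN b))) ∈ g.val χ) ∧
          g.val (pairN (oN a) (oN b)) ∈ g.val γ)) ∧
      (∀ (j : Wd) (l : List ℕ), ¬ ((∀ k : Fin j.length,
        ((j.get k).1 = true ↔ g.val (oN k) ∈ g.val σ) ∧
        ((j.get k).2 = true ↔ g.val (oN k) ∈ g.val τ)) ∧
        ∀ x y, (x < TW.N j ∧ y < TW.N j ∧ TW.arc j x y) →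
          g.val (pairN (oN (l.getD x 0)) (oN (l.getD y 0))) ∈ g.val γ)) ↔ _
  simp only [e0, e1]
  constructor
  · rintro ⟨⟨⟨h5, h6⟩, h7⟩, h8⟩
    refine ⟨?_, ?_, ?_, ?_⟩
    · intro ξ hξ k
      obtain ⟨i, hi, rfl⟩ := mem_val_onm.1 hξ
      obtain ⟨a, ha⟩ := h6 i hi k
      rw [e2 i hi] at ha
      exact ⟨a, ha⟩
    · intro ξ hξ k a b ha hb
      obtain ⟨i, hi, rfl⟩ := mem_val_onm.1 hξ
      by_contra hne
      refine h5 i hi k a b hne ?_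
      rw [e2 i hi, e2 i hi]
      exact ⟨ha, hb⟩
    · intro η hη ξ hξ
      obtain ⟨j, hj, rfl⟩ := mem_val_onm.1 hη
      obtain ⟨β, hβ, hβ', rfl⟩ := mem_val_onm'.1 hξ
      obtain ⟨i, hi⟩ : ∃ i : μ.ToType, (Ordinal.ToType.toOrd i).1 = β :=
        ⟨Ordinal.ToType.mk ⟨β, hβ.trans (Ordinal.ToType.toOrd j).2⟩, by simp⟩
      subst hi
      have hij : i < j := oI_lt_iff.1 hβ
      obtain ⟨m, hm⟩ := h7 i hβ' j hj hij
      refine ⟨m, fun k hk => ?_⟩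
      obtain ⟨a, b, ⟨ha, hb⟩, hab⟩ := hm k hk
      rw [e2 i hβ'] at ha
      rw [e2 j hj] at hb
      exact ⟨a, b, ha, hb, hab⟩
    · intro j hj h hc
      refine h8 j ((List.range (TW.N j)).map h) ⟨fun k => ?_, fun x y hxy => ?_⟩
      · exact hj k
      · have hx : ((List.range (TW.N j)).map h).getD x 0 = h x := by simp [hxy.1]
        have hy : ((List.range (TW.N j)).map h).getD y 0 = h y := by simp [hxy.2.1]
        rw [hx, hy]
        exact hc x y hxy.1 hxy.2.1 hxy.2.2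
  · intro h5
    refine ⟨⟨⟨?_, ?_⟩, ?_⟩, ?_⟩
    · rintro i hi k a b hab ⟨h6, h7⟩
      rw [e2 i hi] at h6 h7
      exact hab (h5.uniq _ (mem_val_onm.2 ⟨i, hi, rfl⟩) k a b h6 h7)
    · intro i hi k
      obtain ⟨a, ha⟩ := h5.tot _ (mem_val_onm.2 ⟨i, hi, rfl⟩) k
      exact ⟨a, by rw [e2 i hi]; exact ha⟩
    · intro i hi j hj hij
      obtain ⟨m, hm⟩ := h5.chain _ (mem_val_onm.2 ⟨j, hj, rfl⟩) _ ((val_oI_mem hi hj).2 hij)
      refine ⟨m, fun k hk => ?_⟩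
      obtain ⟨a, b, ha, hb, hab⟩ := hm k hk
      refine ⟨a, b, ?_, hab⟩
      rw [e2 i hi, e2 j hj]
      exact ⟨ha, hb⟩
    · rintro j l ⟨h6, h7⟩
      exact h5.none j h6 (fun v => l.getD v 0) fun x y hx hy hxy => h7 x y ⟨hx, hy, hxy⟩

end Pool.Agent.Helper63.SM
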